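import Pool.Agent.MWLE.StmtsB
import Pool.Agent.MWGN.StmtsC

/-!
# Row CLB of block MWLE (new proof, only `FBs`): the insertion of `y` is an identity in class b
-/

set_option autoImplicit false

namespace Pool.Agent.MWLE.H54

open Pool.Agent.Helper14_MV Pool.Agent.Helper2_MV Pool.Agent.MWLE
open Pool.Agent.MWK (pre Gw)
open Pool.Agent.MWF (Ap gaml dbl)
open Pool.Agent.MWGN (nn Gz E0 P0 A0 Tau gh bs ws)

/-- the lights -/
def Lq (F : ℕ → List ℕ) (m : ℕ) (i : ℕ) : List ℕ :=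
  if i = m + 1 then F 0 else if i = m + 2 then F (pin (m + 1)) else F (pin i)

/-- the contents -/
def Cq (F : ℕ → List ℕ) (i : ℕ) : List ℕ := if i = 0 then [] else F (con i)

theorem fm_cg {f g : ℕ → List ℕ} : ∀ {l : List ℕ}, (∀ a ∈ l, f a = g a) →
    l.flatMap f = l.flatMap g
  | [], _ => rfl
  | a :: l, h => by
    rw [List.flatMap_cons, List.flatMap_cons, h a List.mem_cons_self,
      fm_cg (fun b hb => h b (List.mem_cons_of_mem _ hb))]

theorem cp_fm (F : ℕ → List ℕ) (m : ℕ) : (cp 1 m).flatMap F = (List.range m).flatMap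
    (fun i => F (pin (i + 1)) ++ (F (con (i + 1)) ++ F (con (i + 1)))) := by
  unfold cp
  rw [List.flatMap_assoc]
  apply fm_cg
  intro i _
  rw [show 1 + i = i + 1 by omega]
  simp [List.flatMap_cons]

theorem bsl (F : ℕ → List ℕ) (X : List ℕ) (m : ℕ) (s : ℕ → Bool) (hs : ∀ i < m + 1, s i = false) :
    bs (Lq F m) (Cq F) X s (m + 2) = F (pin 0) ++ ((cp 1 m).flatMap F ++ (F 0 ++
      (F (con (m + 1)) ++ (F (con (m + 1)) ++ (if s (m + 1) then X ++ X else []))))) := by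
  unfold bs
  rw [List.range_succ, List.flatMap_append, List.flatMap_singleton]
  have e1 : (List.range (m + 1)).flatMap (fun i => Lq F m i ++ (Cq F i ++ (Cq F i ++
      (if s i then X ++ X else [])))) = F (pin 0) ++ (cp 1 m).flatMap F := by
    rw [List.range_succ_eq_map, List.flatMap_cons, List.flatMap_map, cp_fm]
    have e2 : Lq F m 0 ++ (Cq F 0 ++ (Cq F 0 ++ (if s 0 then X ++ X else []))) = F (pin 0) := by
      unfold Lq Cq
      rw [if_neg (by omega), if_neg (by omega), if_pos rfl, hs 0 (by omega)]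
      simp
    rw [e2]
    congr 1
    apply fm_cg
    intro i hi
    have hi' : i < m := List.mem_range.1 hi
    show Lq F m (i + 1) ++ (Cq F (i + 1) ++ (Cq F (i + 1) ++ (if s (i + 1) then X ++ X else []))) = _
    unfold Lq Cq
    rw [if_neg (by omega), if_neg (by omega), if_neg (by omega), hs (i + 1) (by omega)]
    simp
  rw [e1]
  have e3 : Lq F m (m + 1) = F 0 := by unfold Lq; rw [if_pos rfl]
  have e4 : Cq F (m + 1) = F (con (m + 1)) := by unfold Cq; rw [if_neg (by omega)]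
  rw [e3, e4, List.append_assoc]

theorem clb (h1 : TfwStmt) (h2 : VvdStmt) (h3 : MWGN.FspStmt) : ClbStmt := by
  intro β hG hF σ τ m hσ f p q hf
  obtain ⟨F, hFd⟩ : ∃ F : ℕ → List ℕ, F = fun a => (f a).flatMap (psi 1) := ⟨_, rfl⟩
  obtain ⟨τ', S, R, hτ', hT⟩ := h1 σ τ m hσ F
  obtain ⟨M0, hM0⟩ : ∃ M0 : List ℕ, M0 = con 0 :: con 0 :: pin 0 ::
    (cp 1 m ++ [0, con (m + 1), con (m + 1)]) := ⟨_, rfl⟩
  obtain ⟨R0, hR0⟩ : ∃ R0 : List ℕ, R0 = cp (m + 2) m ++
    ([pin (2 * m + 2)] ++ ([0] ++ tl σ)) := ⟨_, rfl⟩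
  have w1 : wd σ m false false = 1 :: (M0 ++ pin (m + 1) :: 1 :: R0) := by
    rw [hM0, hR0]
    simp [wd, wb, N0, Nx]
  have w2 : wd σ m false true = 1 :: (M0 ++ 1 :: pin (m + 1) :: 1 :: R0) := by
    rw [hM0, hR0]
    simp [wd, wb, N0, Nx]
  obtain ⟨Mf, hMf⟩ : ∃ Mf : List ℕ, Mf = M0.flatMap f := ⟨_, rfl⟩
  obtain ⟨Rf, hRf⟩ : ∃ Rf : List ℕ, Rf = (pin (m + 1) :: 1 :: R0).flatMap f ++ q := ⟨_, rfl⟩
  have e1 : p ++ ((wd σ m false false).flatMap f ++ q) = p ++ (f 1 ++ (Mf ++ Rf)) := by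
    rw [w1, hMf, hRf]
    simp only [List.flatMap_append, List.flatMap_cons, List.append_assoc]
  have e2 : p ++ ((wd σ m false true).flatMap f ++ q) = p ++ (f 1 ++ (Mf ++ (f 1 ++ Rf))) := by
    rw [w2, hMf, hRf]
    simp only [List.flatMap_append, List.flatMap_cons, List.append_assoc]
  rw [e1, e2]
  have a1 := h2 β hG 1 p (f 1) (Mf ++ Rf) hf
  have a2 := h2 β hG 1 p (f 1) (Mf ++ (f 1 ++ (f 1 ++ Rf))) hf
  have a3 := h2 β hG 1 (p ++ (f 1 ++ Mf)) (f 1) Rf (fun c hc => by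
    rcases hf c hc with h | h | h
    · exact Or.inl h
    · exact Or.inr (Or.inl h)
    · exact Or.inr (Or.inr (List.mem_append_left _ h)))
  have a3' : RR β ((p ++ (f 1 ++ (Mf ++ (f 1 ++ Rf)))).flatMap (psi 1))
      ((p ++ (f 1 ++ (Mf ++ (f 1 ++ (f 1 ++ Rf))))).flatMap (psi 1)) := by
    simpa only [List.append_assoc] using a3
  refine β.trans a1 (β.trans ?_ (β.trans a2.symm a3'.symm))
  -- the main step
  obtain ⟨X, hX⟩ : ∃ X : List ℕ, X = F 1 := ⟨_, rfl⟩
  obtain ⟨D, hD⟩ : ∃ D : List ℕ, D = F (con 0) := ⟨_, rfl⟩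
  obtain ⟨M2, hM2⟩ : ∃ M2 : List ℕ, M2 = F (pin 0) ++ ((cp 1 m).flatMap F ++ (F 0 ++
      (F (con (m + 1)) ++ (F (con (m + 1)) ++ [])))) := ⟨_, rfl⟩
  obtain ⟨B, hB⟩ : ∃ B : List ℕ, B = (cp (m + 2) m).flatMap F ++ F (pin (2 * m + 2)) := ⟨_, rfl⟩
  obtain ⟨R2, hR2⟩ : ∃ R2 : List ℕ, R2 = R ++ q.flatMap (psi 1) := ⟨_, rfl⟩
  have f1 : (f 1).flatMap (psi 1) = X := by rw [hX, hFd]
  have f2 : Mf.flatMap (psi 1) = D ++ (D ++ M2) := by
    rw [hMf, List.flatMap_assoc, ← hFd, hM0, hM2, hD]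
    simp only [List.flatMap_append, List.flatMap_cons, List.append_assoc, List.flatMap_nil]
  have f3 : Rf.flatMap (psi 1) = F (pin (m + 1)) ++ (X ++ (B ++
      (τ'.flatMap (fun i => S i ++ Lq F m i) ++ R2))) := by
    have e3 : (pin (m + 1) :: 1 :: R0).flatMap F = F (pin (m + 1)) ++ (X ++ (B ++
        (τ'.flatMap (fun i => S i ++ Lq F m i) ++ R))) := by
      have e4 : τ'.flatMap (fun i => S i ++ Lq F m i) ++ R = F 0 ++ (tl σ).flatMap F := by
        rw [hT]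
        rfl
      rw [e4, hR0, hX, hB]
      simp only [List.flatMap_append, List.flatMap_cons, List.append_assoc, List.flatMap_nil,
        List.append_nil]
    rw [hRf, List.flatMap_append, List.flatMap_assoc, ← hFd, e3, hR2]
    simp only [List.append_assoc]
  have hws0 : ws X B S (Lq F m) (Cq F) (fun _ => false) τ' (m + 2) =
      X ++ (X ++ (M2 ++ (F (pin (m + 1)) ++ (X ++ (B ++
        τ'.flatMap (fun i => S i ++ Lq F m i)))))) := by
    unfold ws
    rw [bsl F X m _ (fun _ _ => rfl), hM2]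
    have e5 : Lq F m (m + 2) = F (pin (m + 1)) := by
      unfold Lq; rw [if_neg (by omega), if_pos rfl]
    rw [e5]
    rfl
  have hws1 : ws X B S (Lq F m) (Cq F) (fun i => decide (i = m + 1)) τ' (m + 2) =
      X ++ (X ++ (M2 ++ (X ++ (X ++ (F (pin (m + 1)) ++ (X ++ (B ++
        τ'.flatMap (fun i => S i ++ Lq F m i)))))))) := by
    unfold ws
    rw [bsl F X m _ (fun i hi => by simpa using Nat.ne_of_lt hi), hM2]
    have e5 : Lq F m (m + 2) = F (pin (m + 1)) := by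
      unfold Lq; rw [if_neg (by omega), if_pos rfl]
    rw [e5]
    simp only [decide_true, if_true, List.append_assoc, List.append_nil, List.nil_append]
  have hfill : RR β (X ++ (X ++ (M2 ++ (F (pin (m + 1)) ++ (X ++ (B ++
        τ'.flatMap (fun i => S i ++ Lq F m i)))))))
      (X ++ (X ++ (M2 ++ (X ++ (X ++ (F (pin (m + 1)) ++ (X ++ (B ++
        τ'.flatMap (fun i => S i ++ Lq F m i))))))))) := by
    rw [← hws0, ← hws1]
    refine β.trans (hF (m + 2) τ' hτ' X B S (Lq F m) (Cq F)) ?_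
    exact (h3 β hG (m + 2) (fun n _ τ hτ => hF n τ hτ) τ' hτ' (fun i => decide (i = m + 1))
      ⟨m + 1, by omega, by simp⟩ X B S (Lq F m) (Cq F)).symm
  have hcom : RR β (X ++ (X ++ (D ++ D))) (D ++ (D ++ (X ++ X))) := by
    have h4 := RR.sub (fun i => if i = 0 then X else D) hG.c
    simpa [List.append_assoc] using h4
  have g1 : RR β (p.flatMap (psi 1) ++ (X ++ (X ++ (D ++ (D ++ (M2 ++ (F (pin (m + 1)) ++
      (X ++ (B ++ (τ'.flatMap (fun i => S i ++ Lq F m i) ++ R2))))))))))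
      (p.flatMap (psi 1) ++ (D ++ (D ++ (X ++ (X ++ (M2 ++ (F (pin (m + 1)) ++
      (X ++ (B ++ (τ'.flatMap (fun i => S i ++ Lq F m i) ++ R2)))))))))) := by
    have h4 := (RR.refl (p.flatMap (psi 1))).append (hcom.append (RR.refl (M2 ++ (F (pin (m + 1)) ++
      (X ++ (B ++ (τ'.flatMap (fun i => S i ++ Lq F m i) ++ R2)))))))
    simpa only [List.append_assoc] using h4
  have g2 : RR β (p.flatMap (psi 1) ++ (D ++ (D ++ (X ++ (X ++ (M2 ++ (F (pin (m + 1)) ++
      (X ++ (B ++ (τ'.flatMap (fun i => S i ++ Lq F m i) ++ R2))))))))))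
      (p.flatMap (psi 1) ++ (D ++ (D ++ (X ++ (X ++ (M2 ++ (X ++ (X ++ (F (pin (m + 1)) ++
      (X ++ (B ++ (τ'.flatMap (fun i => S i ++ Lq F m i) ++ R2)))))))))))) := by
    have h4 := (RR.refl (p.flatMap (psi 1) ++ (D ++ D))).append (hfill.append (RR.refl R2))
    simpa only [List.append_assoc] using h4
  have g3 : RR β (p.flatMap (psi 1) ++ (X ++ (X ++ (D ++ (D ++ (M2 ++ (X ++ (X ++ (F (pin (m + 1)) ++
      (X ++ (B ++ (τ'.flatMap (fun i => S i ++ Lq F m i) ++ R2))))))))))))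
      (p.flatMap (psi 1) ++ (D ++ (D ++ (X ++ (X ++ (M2 ++ (X ++ (X ++ (F (pin (m + 1)) ++
      (X ++ (B ++ (τ'.flatMap (fun i => S i ++ Lq F m i) ++ R2)))))))))))) := by
    have h4 := (RR.refl (p.flatMap (psi 1))).append (hcom.append (RR.refl (M2 ++ (X ++ (X ++
      (F (pin (m + 1)) ++ (X ++ (B ++ (τ'.flatMap (fun i => S i ++ Lq F m i) ++ R2)))))))))
    simpa only [List.append_assoc] using h4
  have g := β.trans g1 (β.trans g2 g3.symm)
  simp only [List.flatMap_append, f1, f2, f3, List.append_assoc]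
  exact g

end Pool.Agent.MWLE.H54
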