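import Pool.Agent.Helper46_MWLE.AIO

/-!
# Row RGC of block MWLE (new statement with `FS`): core of the comparison with the twin
-/

set_option autoImplicit false

namespace Pool.Agent.MWLE.H54

open Pool.Agent.Helper14_MV Pool.Agent.Helper2_MV Pool.Agent.MWLE
open Pool.Agent.MWK (pre Gw)
open Pool.Agent.MWF (Ap gaml dbl)
open Pool.Agent.MWGN (nn Gz E0 P0 A0 Tau gh)

theorem dq_app (Q : ℕ → Bool) (u v : List ℕ) : dq Q (u ++ v) = dq Q u ++ dq Q v := by
  unfold dq
  rw [List.flatMap_append]

theorem dq_cons' (Q : ℕ → Bool) (c : ℕ) (v : List ℕ) :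
    dq Q (c :: v) = (if Q c then [c] else [c, c]) ++ dq Q v := rfl

theorem dq_dbl (Q : ℕ → Bool) : ∀ v : List ℕ, (∀ c ∈ v, Q c = false) → dq Q v = dbl v
  | [], _ => rfl
  | a :: v, h => by
    rw [dq_cons', dq_dbl Q v (fun c hc => h c (List.mem_cons_of_mem _ hc)), h a (by simp)]
    rfl

theorem dbl_cons' (c : ℕ) (v : List ℕ) : dbl (c :: v) = c :: c :: dbl v := rfl

theorem dbl_app' (u v : List ℕ) : dbl (u ++ v) = dbl u ++ dbl v := by
  unfold dbl
  rw [List.flatMap_append]

theorem rgc (h1 : DdcStmt) : RgcStmt := by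
  intro β hG hF Q P G R z hA hP hQz hnd hPR hzR
  by_cases hG0 : G = []
  · subst hG0
    exact RR.refl _
  have ha0 := hA hG0
  obtain ⟨T1, T2, hT⟩ := List.append_of_mem hzR
  -- (i)
  have ins : ∀ g2 g1 : List ℕ, G = g1 ++ g2 →
      RR β (dq Q P ++ (dbl g1 ++ z :: (dbl G ++ R))) (dq Q P ++ (dbl G ++ z :: (dbl G ++ R))) := by
    intro g2
    induction g2 with
    | nil =>
      intro g1 hg
      rw [List.append_nil] at hg
      rw [hg]
      exact RR.refl _
    | cons c g2 ih =>
      intro g1 hg
      have h2 := ih (g1 ++ [c]) (by rw [hg]; simp)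
      refine β.trans ?_ h2
      have hcG : c ∈ G := by rw [hg]; simp
      obtain ⟨hcP, hQc⟩ := hP c hcG
      obtain ⟨P1, P2, hPP⟩ := List.append_of_mem hcP
      have hg1 : ∀ e ∈ g1, Q e = false := fun e he => (hP e (by rw [hg]; simp [he])).2
      have hfg : g1.filter Q = [] := List.filter_eq_nil_iff.2 (fun e he => by rw [hg1 e he]; simp)
      have hn : (((P2 ++ g1) ++ (z :: g1)).filter Q).Nodup := by
        have e1 : ((P2 ++ g1) ++ (z :: g1)).filter Q = (P2 ++ [z]).filter Q := by
          rw [List.filter_append, List.filter_append, List.filter_cons_of_pos hQz, hfg,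
            List.filter_append, List.filter_cons_of_pos hQz]
          simp
        rw [e1]
        refine List.Nodup.sublist ?_ hnd
        apply List.Sublist.filter
        rw [hPP]
        apply List.Sublist.append_right
        exact (List.sublist_cons_self _ _).trans (List.sublist_append_right _ _)
      have hq : ∀ e ∈ (P2 ++ g1) ++ (z :: g1), Q e = true → e ∈ c :: (dbl g2 ++ R) := by
        intro e he hQe
        apply List.mem_cons_of_mem
        apply List.mem_append_right
        rcases List.mem_append.1 he with he | he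
        · rcases List.mem_append.1 he with he | he
          · exact hPR e (by rw [hPP]; simp [he]) hQe
          · rw [hg1 e he] at hQe
            exact absurd hQe (by simp)
        · rcases List.mem_cons.1 he with he | he
          · rw [he]; exact hzR
          · rw [hg1 e he] at hQe
            exact absurd hQe (by simp)
      have h3 := hF Q (dq Q P1) (P2 ++ g1) (z :: g1) (c :: (dbl g2 ++ R)) c hn hq
      have e2 : dq Q (P2 ++ g1) = dq Q P2 ++ dbl g1 := by rw [dq_app, dq_dbl Q g1 hg1]
      have e3 : dq Q (z :: g1) = z :: dbl g1 := by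
        rw [dq_cons', if_pos hQz, dq_dbl Q g1 hg1]
        rfl
      have e4 : dq Q P = dq Q P1 ++ c :: c :: dq Q P2 := by
        rw [hPP, dq_app, dq_cons', hQc]
        rfl
      rw [e2, e3] at h3
      have e5 : dbl G ++ R = dbl g1 ++ c :: c :: (dbl g2 ++ R) := by
        rw [hg, dbl_app', dbl_cons']
        simp
      have h4 : RR β (dq Q P ++ (dbl g1 ++ z :: (dbl G ++ R)))
          (dq Q P ++ (dbl g1 ++ c :: z :: (dbl G ++ R))) := by
        rw [e4, e5]
        simpa [List.append_assoc] using h3
      refine β.trans h4 ?_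
      have h5 := MWLE.H46.dblc hG (A := dq Q P ++ dbl g1) (c := c)
        (List.mem_append_left _ (by rw [e4]; simp)) (z :: (dbl G ++ R))
      have e6 : dbl (g1 ++ [c]) = dbl g1 ++ [c, c] := by rw [dbl_app']; rfl
      rw [e6]
      simp only [List.append_assoc, List.cons_append, List.nil_append] at h5 ⊢
      exact h5
  have s1 := ins G [] rfl
  obtain ⟨-, d2, -⟩ := h1 β hG G [] (dq Q P) (z :: R)
  obtain ⟨-, d2', -⟩ := h1 β hG G [] (dq Q P) (z :: (dbl G ++ R))
  -- (ii)
  have s2 : RR β (dq Q P ++ (dbl G ++ (dbl G ++ z :: R)))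
      (dq Q P ++ (dbl G ++ (dbl G ++ z :: (dbl G ++ R)))) := by
    have e1 : RR β [0, 0, 1, 2, 1] [0, 0, 1, 0, 2, 1] := ha0
    have e2 := e1.sub (fun i => if i = 0 then dbl G else if i = 1 then [z] else T1)
    have e3 := (RR.refl (dq Q P)).append (e2.append (RR.refl T2))
    rw [hT]
    simpa [List.append_assoc] using e3
  exact β.trans (β.trans (β.trans s1 d2') s2.symm) d2.symm

end Pool.Agent.MWLE.H54
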